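import Pool.Agent.Y192.KC.ZDefs

/-!
Holomorphic maps from the punctured disc to covers of projective varieties: the algebraic part.
Forms of Laurent polynomials, substitution of powers, equations of the points of the covers.
-/

set_option autoImplicit false

namespace Pool.Agent.Y641.KZ

open MvPolynomial Pool.Agent.Y192.OG Pool.Agent.Y192.KC

section lau

variable {n : ℕ}

theorem ep_one {K : Type} [Field K] [Algebra ℂ K] (x : Fin n → Kˣ) (m : Fin n → ℤ) :
    ep x (AddMonoidAlgebra.single m (1 : ℂ)) = (xm x m : K) := by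
  rw [ep_single, one_smul]

theorem xm_one {K : Type} [Field K] (x : Fin n → Kˣ) (i : Fin n) :
    xm x (Pi.single i 1) = x i := by
  unfold xm
  rw [Finset.prod_eq_single i]
  · rw [Pi.single_eq_same, zpow_one]
  · intro j _ hj
    rw [Pi.single_eq_of_ne hj, zpow_zero]
  · intro h
    exact absurd (Finset.mem_univ i) h

theorem ep_laur {K : Type} [Field K] [Algebra ℂ K] (x : Fin n → Kˣ)
    (f : MvPolynomial (Fin (n + 1)) ℂ) :
    ep x (laur f) = aeval (Fin.cons (α := fun _ => K) 1 fun i => (x i : K)) f := by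
  unfold laur
  rw [← AlgHom.comp_apply, comp_aeval]
  congr 2
  funext i
  refine Fin.cases ?_ (fun i => ?_) i
  · simp only [Fin.cons_zero, map_one]
  · simp only [Fin.cons_succ]
    rw [ep_one, xm_one]

theorem lev_eq_ep (x : Fin n → ℂˣ) (g : Lau n) : lev g (fun i => (x i : ℂ)) = ep x g := by
  induction g using AddMonoidAlgebra.induction_linear with
  | zero => rw [lev_zero, map_zero]
  | add f g hf hg => rw [lev_add, map_add, hf, hg]
  | single m a =>
    rw [lev_single, ep_single, smul_eq_mul]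
    congr 1
    unfold xm
    rw [Units.coe_prod]
    exact Finset.prod_congr rfl fun i _ => by rw [Units.val_zpow_eq_zpow_val]

theorem lev_mul (f g : Lau n) {x : Fin n → ℂ} (hx : ∀ i, x i ≠ 0) :
    lev (f * g) x = lev f x * lev g x := by
  have h : x = fun i => ((Units.mk0 (x i) (hx i) : ℂˣ) : ℂ) := rfl
  rw [h, lev_eq_ep, lev_eq_ep, lev_eq_ep, map_mul]

theorem aeval_eval {σ : Type} (f : MvPolynomial σ ℂ) (v : σ → ℂ) : aeval v f = eval v f := by
  rw [← coe_aeval_eq_eval]
  rfl

/-- scaling the variables of a form -/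
theorem eval_scale {σ : Type} {f : MvPolynomial σ ℂ} {k : ℕ} (hf : f.IsHomogeneous k) (c : ℂ)
    (v : σ → ℂ) : eval (fun i => c * v i) f = c ^ k * eval v f := by
  rw [_root_.MvPolynomial.eval_eq, _root_.MvPolynomial.eval_eq, Finset.mul_sum]
  refine Finset.sum_congr rfl fun d hd => ?_
  have h1 : ∑ i ∈ d.support, d i = k := by
    have := hf (mem_support_iff.mp hd)
    rw [Finsupp.weight_apply, Finsupp.sum] at this
    simpa using this
  have h2 : ∏ i ∈ d.support, (c * v i) ^ d i = c ^ k * ∏ i ∈ d.support, v i ^ d i := by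
    rw [← h1, ← Finset.prod_pow_eq_pow_sum, ← Finset.prod_mul_distrib]
    exact Finset.prod_congr rfl fun i _ => mul_pow _ _ _
  rw [h2]
  ring

theorem lev_laur {f : MvPolynomial (Fin (n + 1)) ℂ} {k : ℕ} (hf : f.IsHomogeneous k)
    {v : Fin (n + 1) → ℂ} (hv : ∀ i, v i ≠ 0) : lev (laur f) (tor v) = eval v f / v 0 ^ k := by
  have h : tor v = fun i => ((Units.mk0 (tor v i) (div_ne_zero (hv _) (hv 0)) : ℂˣ) : ℂ) := rfl
  rw [h, lev_eq_ep, ep_laur, eq_div_iff (pow_ne_zero _ (hv 0)), mul_comm]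
  have h1 : (aeval (Fin.cons (α := fun _ => ℂ) 1 fun i =>
      ((Units.mk0 (tor v i) (div_ne_zero (hv _) (hv 0)) : ℂˣ) : ℂ)) f : ℂ)
      = eval (fun i => (v 0)⁻¹ * v i) f := by
    rw [← aeval_eval]
    congr 2
    funext i
    refine Fin.cases ?_ (fun i => ?_) i
    · simp only [Fin.cons_zero]
      rw [inv_mul_cancel₀ (hv 0)]
    · simp only [Fin.cons_succ, Units.val_mk0]
      unfold tor
      rw [div_eq_inv_mul]
  rw [h1, eval_scale hf, inv_pow, ← mul_assoc, mul_inv_cancel₀ (pow_ne_zero _ (hv 0)), one_mul]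

theorem prod_single (s : Finset (Fin n)) (a : Fin n → Fin n → ℤ) :
    (∏ i ∈ s, AddMonoidAlgebra.single (a i) (1 : ℂ) : Lau n)
      = AddMonoidAlgebra.single (∑ i ∈ s, a i) 1 := by
  classical
  induction s using Finset.induction_on with
  | empty => rfl
  | insert i s hi ih =>
    rw [Finset.prod_insert hi, Finset.sum_insert hi, ih, AddMonoidAlgebra.single_mul_single, mul_one]

theorem laur_X_zero : laur (X 0 : MvPolynomial (Fin (n + 1)) ℂ) = 1 := by
  unfold laur
  rw [aeval_X, Fin.cons_zero]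

theorem laur_X_succ (i : Fin n) : laur (X i.succ : MvPolynomial (Fin (n + 1)) ℂ)
    = AddMonoidAlgebra.single (Pi.single i 1) (1 : ℂ) := by
  unfold laur
  rw [aeval_X, Fin.cons_succ]

theorem single_pow (a : Fin n → ℤ) (k : ℕ) :
    (AddMonoidAlgebra.single a (1 : ℂ) : Lau n) ^ k = AddMonoidAlgebra.single (k • a) 1 := by
  rw [AddMonoidAlgebra.single_pow, one_pow]

/-- the form of a Laurent polynomial -/
theorem form_aux (g : Lau n) : ∃ k : ℕ, ∀ a b : ℕ, k ≤ a → k ≤ b →
    ∃ P : MvPolynomial (Fin (n + 1)) ℂ, P.IsHomogeneous (a + n * b) ∧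
      laur P = AddMonoidAlgebra.single (fun _ => (b : ℤ)) 1 * g := by
  induction g using AddMonoidAlgebra.induction_linear with
  | zero =>
    refine ⟨0, fun a b _ _ => ⟨0, isHomogeneous_zero _ _ _, ?_⟩⟩
    unfold laur
    rw [map_zero, mul_zero]
  | add f g hf hg =>
    obtain ⟨k1, h1⟩ := hf
    obtain ⟨k2, h2⟩ := hg
    refine ⟨max k1 k2, fun a b ha hb => ?_⟩
    obtain ⟨P1, a1, b1⟩ := h1 a b ((le_max_left _ _).trans ha) ((le_max_left _ _).trans hb)
    obtain ⟨P2, a2, b2⟩ := h2 a b ((le_max_right _ _).trans ha) ((le_max_right _ _).trans hb)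
    refine ⟨P1 + P2, a1.add a2, ?_⟩
    have : laur (P1 + P2) = laur P1 + laur P2 := by
      unfold laur
      rw [map_add]
    rw [this, b1, b2, mul_add]
  | single m x =>
    set k : ℕ := ∑ i, (m i).natAbs with hk
    have hki : ∀ i, (m i).natAbs ≤ k := fun i =>
      Finset.single_le_sum (f := fun i => (m i).natAbs) (fun i _ => Nat.zero_le _)
        (Finset.mem_univ i)
    have hks : |∑ i, m i| ≤ k := by
      refine (Finset.abs_sum_le_sum_abs _ _).trans ?_
      rw [hk]
      push_cast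
      exact le_rfl
    refine ⟨k, fun a b ha hb => ?_⟩
    set e0 : ℕ := ((a : ℤ) - ∑ i, m i).toNat with he0
    set e : Fin n → ℕ := fun i => ((b : ℤ) + m i).toNat with he
    have h0 : (e0 : ℤ) = a - ∑ i, m i := by
      rw [he0, Int.toNat_of_nonneg]
      have := (abs_le.mp hks).2
      omega
    have h1 : ∀ i, (e i : ℤ) = b + m i := by
      intro i
      rw [he]
      simp only
      rw [Int.toNat_of_nonneg]
      have := hki i
      omega
    have e3 : a + n * b = e0 + ∑ i, e i := by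
      have : ((a + n * b : ℕ) : ℤ) = ((e0 + ∑ i, e i : ℕ) : ℤ) := by
        push_cast
        rw [Finset.sum_congr rfl (fun i _ => h1 i), h0, Finset.sum_add_distrib]
        simp
      exact_mod_cast this
    refine ⟨C x * (X 0 ^ e0 * ∏ i : Fin n, X i.succ ^ e i), ?_, ?_⟩
    · have h2 : (X 0 ^ e0 * ∏ i : Fin n, X i.succ ^ e i :
          MvPolynomial (Fin (n + 1)) ℂ).IsHomogeneous (e0 + ∑ i, e i) := by
        refine IsHomogeneous.mul ?_ (IsHomogeneous.prod _ _ _ fun i _ => ?_)
        · have := (isHomogeneous_X ℂ (0 : Fin (n + 1))).pow e0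
          rwa [one_mul] at this
        · have := (isHomogeneous_X ℂ i.succ).pow (e i)
          rwa [one_mul] at this
      rw [e3]
      have := (isHomogeneous_C (Fin (n + 1)) x).mul h2
      rwa [zero_add] at this
    · have h2 : laur (C x * (X 0 ^ e0 * ∏ i : Fin n, X i.succ ^ e i))
          = algebraMap ℂ (Lau n) x * (laur (X 0) ^ e0 * ∏ i : Fin n, laur (X i.succ) ^ e i) := by
        unfold laur
        rw [map_mul, map_mul, map_prod, map_pow, aeval_C]
        simp only [map_pow]
      rw [h2, laur_X_zero, one_pow, one_mul]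
      have h3 : ∏ i : Fin n, laur (X i.succ : MvPolynomial (Fin (n + 1)) ℂ) ^ e i
          = AddMonoidAlgebra.single (fun i => (e i : ℤ)) 1 := by
        rw [Finset.prod_congr rfl fun i _ => by rw [laur_X_succ, single_pow], prod_single]
        congr 1
        funext j
        rw [Finset.sum_apply, Finset.sum_eq_single j]
        · rw [Pi.smul_apply, Pi.single_eq_same, nsmul_eq_mul, mul_one]
        · intro i _ hi
          rw [Pi.smul_apply, Pi.single_eq_of_ne hi.symm, smul_zero]
        · intro h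
          exact absurd (Finset.mem_univ j) h
      rw [h3, ← Algebra.smul_def, AddMonoidAlgebra.smul_single, smul_eq_mul, mul_one,
        AddMonoidAlgebra.single_mul_single, one_mul]
      congr 1
      funext i
      rw [Pi.add_apply, h1 i]

theorem form (g : Lau n) : ∃ (k b : ℕ) (P : MvPolynomial (Fin (n + 1)) ℂ), P.IsHomogeneous k ∧
    laur P = AddMonoidAlgebra.single (fun _ => (b : ℤ)) 1 * g := by
  obtain ⟨k, hk⟩ := form_aux g
  obtain ⟨P, h1, h2⟩ := hk k k le_rfl le_rfl
  exact ⟨_, k, P, h1, h2⟩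

theorem form_eval {g : Lau n} {k b : ℕ} {P : MvPolynomial (Fin (n + 1)) ℂ} (hP : P.IsHomogeneous k)
    (h : laur P = AddMonoidAlgebra.single (fun _ => (b : ℤ)) 1 * g) {v : Fin (n + 1) → ℂ}
    (hv : ∀ i, v i ≠ 0) : eval v P = 0 ↔ lev g (tor v) = 0 := by
  have h1 := lev_laur hP hv
  have hx : ∀ i, tor v i ≠ 0 := fun i => div_ne_zero (hv _) (hv 0)
  rw [h, lev_mul _ _ hx, lev_single, one_mul] at h1
  have h2 : ∏ i, tor v i ^ (b : ℤ) ≠ 0 := Finset.prod_ne_zero_iff.mpr fun i _ =>
    zpow_ne_zero _ (hx i)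
  constructor
  · intro h0
    rw [h0, zero_div] at h1
    exact (mul_eq_zero.mp h1).resolve_left h2
  · intro h0
    rw [h0, mul_zero] at h1
    exact (div_eq_zero_iff.mp h1.symm).resolve_right (pow_ne_zero _ (hv 0))

theorem form_ep {K : Type} [Field K] [Algebra ℂ K] (x : Fin n → Kˣ) {g : Lau n} {b : ℕ}
    {P : MvPolynomial (Fin (n + 1)) ℂ}
    (h : laur P = AddMonoidAlgebra.single (fun _ => (b : ℤ)) 1 * g) :
    ep x (laur P) = 0 ↔ ep x g = 0 := by
  rw [h, map_mul, ep_one]
  exact mul_eq_zero_iff_left (Units.ne_zero _)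

end lau

section pow

variable {n r : ℕ}

/-- substitution of the `m`-th powers of the coordinates `t` -/
noncomputable def sb (r m : ℕ) (P : MvPolynomial (Fin (n + 1)) ℂ) : Poly n r :=
  aeval (fun i => (X (Sum.inl i) : Poly n r) ^ m) P

theorem aeval_sb {L : Type} [Field L] [Algebra ℂ L] (m : ℕ) (P : MvPolynomial (Fin (n + 1)) ℂ)
    (t : Fin (n + 1) → L) (w : Fin r → L) :
    aeval (Sum.elim t w) (sb r m P) = aeval (fun i => t i ^ m) P := by
  unfold sb
  rw [← AlgHom.comp_apply, comp_aeval]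
  congr 2
  funext i
  rw [map_pow, aeval_X, Sum.elim_inl]

theorem eval_sb (m : ℕ) (P : MvPolynomial (Fin (n + 1)) ℂ) (u : Fin (n + 1) → ℂ) (v : Fin r → ℂ) :
    eval (Sum.elim u v) (sb r m P) = eval (fun i => u i ^ m) P := by
  have h := aeval_sb m P u v
  rwa [aeval_eval, aeval_eval] at h

theorem wh_sb (X : Cov n r) (m : ℕ) {P : MvPolynomial (Fin (n + 1)) ℂ} {k : ℕ}
    (hP : P.IsHomogeneous k) : WH X m (sb r m P) (m * k) := by
  unfold WH sb
  rw [aeval_def, eval₂_eq']
  rw [← mem_weightedHomogeneousSubmodule]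
  refine Submodule.sum_mem _ fun d hd => ?_
  rw [mem_weightedHomogeneousSubmodule]
  have h1 : ∑ i, d i = k := by
    have := hP (mem_support_iff.mp hd)
    rw [Finsupp.weight_apply, Finsupp.sum_fintype _ _ (fun i => by simp)] at this
    simpa using this
  have h2 : IsWeightedHomogeneous (Sum.elim (fun _ => 1) (X.wt m))
      (∏ i, ((MvPolynomial.X (Sum.inl i) : Poly n r) ^ m) ^ d i) (∑ i : Fin (n + 1), d i • (m • 1)) := by
    refine IsWeightedHomogeneous.prod _ _ _ fun i _ => ?_
    refine IsWeightedHomogeneous.pow (IsWeightedHomogeneous.pow ?_ _) _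
    have := isWeightedHomogeneous_X ℂ (Sum.elim (fun _ => 1) (X.wt m) : Fin (n + 1) ⊕ Fin r → ℕ)
      (Sum.inl i)
    rwa [Sum.elim_inl] at this
  have h3 : ∑ i : Fin (n + 1), d i • (m • 1) = m * k := by
    rw [← h1, Finset.mul_sum]
    exact Finset.sum_congr rfl fun i _ => by simp [mul_comm]
  rw [h3] at h2
  have h4 := (isWeightedHomogeneous_C (Sum.elim (fun _ => 1) (X.wt m) : Fin (n + 1) ⊕ Fin r → ℕ)
    (coeff d P)).mul h2
  rwa [zero_add] at h4

/-- the equations of the points of the cover -/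
theorem pt_pow {X : ZCov n r} {m : ℕ} (he : ∀ j, X.e j ∣ m) {L : Type} [Field L]
    [Algebra ℂ L] {t : Fin (n + 1) → L} {w : Fin r → L} (hF : ZField X m L t w)
    {u : Fin (n + 1) → ℂ} {v : Fin r → ℂ} (h : Pt X.toCov m t w u v) :
    (∀ (f : MvPolynomial (Fin (n + 1)) ℂ) (k : ℕ), f.IsHomogeneous k → f ∈ X.I →
      eval (fun i => u i ^ m) f = 0) ∧
    ∀ j, v j ^ X.e j = eval (fun i => u i ^ m) (X.F j) := by
  obtain ⟨h0, h1, h2⟩ := h
  refine ⟨fun f k hf hfI => ?_, fun j => ?_⟩
  · have h3 := h1 (sb r m f) (m * k) (wh_sb X.toCov m hf)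
      (by rw [aeval_sb]; exact (hF.van f k hf).mpr hfI)
    rwa [eval_sb] at h3
  · have hw : X.e j * X.wt m j = m * X.d j := by
      unfold Cov.wt
      exact Nat.mul_div_cancel' ((he j).mul_right _)
    have h4 : WH X.toCov m ((MvPolynomial.X (Sum.inr j) : Poly n r) ^ X.e j) (m * X.d j) := by
      have := (isWeightedHomogeneous_X ℂ (Sum.elim (fun _ => 1) (X.wt m) : Fin (n + 1) ⊕ Fin r → ℕ)
        (Sum.inr j)).pow (X.e j)
      rw [Sum.elim_inr, smul_eq_mul, hw] at this
      exact this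
    have h5 : WH X.toCov m ((MvPolynomial.X (Sum.inr j) : Poly n r) ^ X.e j - sb r m (X.F j))
        (m * X.d j) := by
      have h6 := wh_sb (r := r) X.toCov m (X.hF j)
      unfold WH at h4 h6 ⊢
      rw [← mem_weightedHomogeneousSubmodule] at h4 h6 ⊢
      exact Submodule.sub_mem _ h4 h6
    have h3 := h1 _ _ h5 (by
      rw [map_sub, map_pow, aeval_X, Sum.elim_inr, aeval_sb, hF.eqn j, sub_self])
    rw [map_sub, map_pow, eval_X, Sum.elim_inr, eval_sb, sub_eq_zero] at h3
    exact h3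

end pow

end Pool.Agent.Y641.KZ
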