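import Pool.Agent.W601.PH.Curve
import Pool.Agent.Y192.KC.Defs

/-!
Holomorphic maps from the punctured disc to covers of projective varieties: the analytic part.
Extension of the roots of meromorphic functions.
-/

set_option autoImplicit false

namespace Pool.Agent.Y641.KZ

open Filter Metric Topology Pool.Agent.W603.BP Pool.Agent.W601.PH

theorem gr_root {m : ℕ} (hm : 0 < m) {a b : ℂ → ℂ}
    (h : Gr (fun w => a w ^ m) (fun w => b w ^ m)) : Gr a b := by
  obtain ⟨C, K, hC⟩ := h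
  refine ⟨max C 1, K, ?_⟩
  filter_upwards [hC, PB_mem one_pos] with w h1 h2
  have hw : ‖w‖ ≤ 1 := h2.2.le
  have hmax : 0 ≤ max C 1 := zero_le_one.trans (le_max_right _ _)
  have h3 : (‖a w‖ * ‖w‖ ^ K) ^ m ≤ (max C 1 * ‖b w‖) ^ m := by
    rw [norm_pow, norm_pow] at h1
    calc (‖a w‖ * ‖w‖ ^ K) ^ m = ‖a w‖ ^ m * (‖w‖ ^ K) ^ m := mul_pow _ _ _
      _ ≤ ‖a w‖ ^ m * ‖w‖ ^ K := mul_le_mul_of_nonneg_left
          (pow_le_of_le_one (by positivity) (pow_le_one₀ (norm_nonneg _) hw) hm.ne') (by positivity)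
      _ ≤ C * ‖b w‖ ^ m := h1
      _ ≤ (max C 1) ^ m * ‖b w‖ ^ m := mul_le_mul_of_nonneg_right
          ((le_max_left _ _).trans (le_self_pow₀ (le_max_right _ _) hm.ne')) (by positivity)
      _ = _ := (mul_pow _ _ _).symm
  exact le_of_pow_le_pow_left₀ hm.ne' (by positivity) h3

/-- a map extends if the `m`-th powers of its coordinates have meromorphic ratios -/
theorem extends_root {n m : ℕ} (hm : 0 < m) {u : ℂ → Fin (n + 1) → ℂ}
    (hu : ∀ j, AnalyticOnNhd ℂ (fun z => u z j) (PB 1)) (hne : ∀ z ∈ PB 1, u z ≠ 0)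
    (hn0 : Nz (fun z => u z 0))
    (h : ∀ j, MRel (fun z => u z j ^ m) (fun z => u z 0 ^ m)) : Extends u := by
  have hP : ∀ j, Pun (fun w => u w j) := fun j => on_pun one_pos (hu j)
  exact extends_mrel hu hne (h := fun z => u z 0) fun j =>
    growth_mero (hP j) (hP 0) hn0 (gr_root hm (h j).gr)

/-- a relation which holds at nearby points of a dense set holds near the origin -/
theorem rel_ev {a b T : ℂ → ℂ} (ha : ∀ w ∈ PB 1, ContinuousAt a w)
    (hb : ∀ w ∈ PB 1, ContinuousAt b w) (hT : MeromorphicAt T 0)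
    (h : ∀ᶠ w in 𝓝[≠] (0 : ℂ), ∀ᶠ y in 𝓝[≠] w, a y = T y * b y) : MRel a b := by
  refine ⟨T, hT, ?_⟩
  filter_upwards [h, PB_mem one_pos, hT.eventually_analyticAt] with w h1 h2 h3
  have t1 : Tendsto (fun y => a y - T y * b y) (𝓝[≠] w) (𝓝 (a w - T w * b w)) :=
    ((ha w h2).sub (h3.continuousAt.mul (hb w h2))).tendsto.mono_left nhdsWithin_le_nhds
  have t2 : Tendsto (fun y => a y - T y * b y) (𝓝[≠] w) (𝓝 0) := by
    apply tendsto_const_nhds.congr'
    filter_upwards [h1] with y hy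
    rw [hy, sub_self]
  exact sub_eq_zero.mp (tendsto_nhds_unique t1 t2)

theorem eval_scale' {σ : Type} {f : MvPolynomial σ ℂ} {k : ℕ} (hf : f.IsHomogeneous k) (c : ℂ)
    (v : σ → ℂ) : MvPolynomial.eval (fun i => c * v i) f = c ^ k * MvPolynomial.eval v f := by
  rw [MvPolynomial.eval_eq, MvPolynomial.eval_eq, Finset.mul_sum]
  refine Finset.sum_congr rfl fun d hd => ?_
  have h1 : ∑ i ∈ d.support, d i = k := by
    have := hf (MvPolynomial.mem_support_iff.mp hd)
    rw [Finsupp.weight_apply, Finsupp.sum] at this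
    simpa using this
  have h2 : ∏ i ∈ d.support, (c * v i) ^ d i = c ^ k * ∏ i ∈ d.support, v i ^ d i := by
    rw [← h1, ← Finset.prod_pow_eq_pow_sum, ← Finset.prod_mul_distrib]
    exact Finset.prod_congr rfl fun i _ => mul_pow _ _ _
  rw [h2]
  ring

/-- the other coordinates of the cover -/
theorem extends_cover {n r : ℕ} (X : Pool.Agent.Y192.KC.Cov n r) {m : ℕ} (he : ∀ j, X.e j ∣ m)
    {u : ℂ → Fin (n + 1) → ℂ} {v : ℂ → Fin r → ℂ}
    (hu : DifferentiableOn ℂ u (ball 0 1 \ {0})) (hv : DifferentiableOn ℂ v (ball 0 1 \ {0}))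
    (hne : ∀ z ∈ ball (0 : ℂ) 1 \ {0}, u z ≠ 0)
    (heq : ∀ z ∈ ball (0 : ℂ) 1 \ {0}, ∀ j,
      v z j ^ X.e j = MvPolynomial.eval (fun i => u z i ^ m) (X.F j))
    (h : Extends u) : Pool.Agent.Y192.KC.Extends X m u v := by
  classical
  obtain ⟨g, hg, hg0, hgc⟩ := h
  have hgc' : ∀ z, ∃ c : ℂ, z ∈ ball (0 : ℂ) 1 \ {0} → u z = c • g z := by
    intro z
    by_cases hz : z ∈ ball (0 : ℂ) 1 \ {0}
    · obtain ⟨c, hc⟩ := hgc z hz
      exact ⟨c, fun _ => hc⟩
    · exact ⟨0, fun h => absurd h hz⟩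
  choose c hc using hgc'
  have hc0 : ∀ z ∈ ball (0 : ℂ) 1 \ {0}, c z ≠ 0 := by
    intro z hz h0
    exact hne z hz (by rw [hc z hz, h0, zero_smul])
  have hopen : IsOpen (ball (0 : ℂ) 1 \ {0}) := isOpen_ball.sdiff isClosed_singleton
  have hcd : ∀ z ∈ ball (0 : ℂ) 1 \ {0}, DifferentiableAt ℂ c z := by
    intro z hz
    obtain ⟨i, hi⟩ : ∃ i, g z i ≠ 0 := by
      by_contra hcon
      push Not at hcon
      exact hg0 z hz.1 (funext hcon)
    have d1 : DifferentiableAt ℂ (fun w => g w i) z :=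
      differentiableAt_pi.mp ((hg z hz.1).differentiableAt (isOpen_ball.mem_nhds hz.1)) i
    have d2 : DifferentiableAt ℂ (fun w => u w i) z :=
      differentiableAt_pi.mp ((hu z hz).differentiableAt (hopen.mem_nhds hz)) i
    refine (d2.fun_div d1 hi).congr_of_eventuallyEq ?_
    filter_upwards [hopen.mem_nhds hz, d1.continuousAt.eventually_ne hi] with w hw1 hw2
    rw [hc w hw1, Pi.smul_apply, smul_eq_mul, mul_div_cancel_right₀ _ hw2]
  set V : Fin r → ℂ → ℂ := fun j z => v z j / c z ^ X.wt m j with hV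
  have hVd : ∀ j, DifferentiableOn ℂ (V j) (ball 0 1 \ {0}) := by
    intro j z hz
    have d1 : DifferentiableAt ℂ (fun w => v w j) z :=
      differentiableAt_pi.mp ((hv z hz).differentiableAt (hopen.mem_nhds hz)) j
    exact (d1.fun_div ((hcd z hz).fun_pow _) (pow_ne_zero _ (hc0 z hz))).differentiableWithinAt
  have hVe : ∀ z ∈ ball (0 : ℂ) 1 \ {0}, ∀ j,
      V j z ^ X.e j = MvPolynomial.eval (fun i => g z i ^ m) (X.F j) := by
    intro z hz j
    have hw : X.wt m j * X.e j = m * X.d j := by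
      unfold Pool.Agent.Y192.KC.Cov.wt
      exact Nat.div_mul_cancel ((he j).mul_right _)
    have h1 : (fun i => u z i ^ m) = fun i => c z ^ m * g z i ^ m := by
      funext i
      rw [hc z hz, Pi.smul_apply, smul_eq_mul, mul_pow]
    have h2 : c z ^ (m * X.d j) ≠ 0 := pow_ne_zero _ (hc0 z hz)
    rw [hV]
    simp only
    rw [div_pow, heq z hz j, ← pow_mul, hw, h1, eval_scale' (X.hF j), ← pow_mul,
      mul_div_cancel_left₀ _ h2]
  have hbd : ∀ j, ∃ M : ℝ, ∀ z ∈ ball (0 : ℂ) (1 / 2) \ {0}, ‖V j z‖ ≤ M := by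
    intro j
    have hcont : ContinuousOn (fun z => MvPolynomial.eval (fun i => g z i ^ m) (X.F j))
        (closedBall (0 : ℂ) (1 / 2)) := by
      intro z hz
      have hz1 : z ∈ ball (0 : ℂ) 1 := closedBall_subset_ball (by norm_num) hz
      have h1 : ContinuousAt g z :=
        ((hg z hz1).differentiableAt (isOpen_ball.mem_nhds hz1)).continuousAt
      have h2 : ContinuousAt (fun z => fun i => g z i ^ m) z :=
        continuousAt_pi.mpr fun i => ((continuous_apply i).continuousAt.comp h1).pow m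
      exact ((MvPolynomial.continuous_eval (X.F j)).continuousAt.comp h2).continuousWithinAt
    obtain ⟨M, hM⟩ := (isCompact_closedBall (0 : ℂ) (1 / 2)).exists_bound_of_continuousOn hcont
    refine ⟨max M 1, fun z hz => ?_⟩
    have hz1 : z ∈ ball (0 : ℂ) 1 \ {0} := ⟨ball_subset_ball (by norm_num) hz.1, hz.2⟩
    have h1 := hM z (ball_subset_closedBall hz.1)
    rw [← hVe z hz1 j, norm_pow] at h1
    have h2 : ‖V j z‖ ^ X.e j ≤ (max M 1) ^ X.e j :=
      h1.trans ((le_max_left _ _).trans (le_self_pow₀ (le_max_right _ _) (X.he j).ne'))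
    exact le_of_pow_le_pow_left₀ (X.he j).ne' (zero_le_one.trans (le_max_right _ _)) h2
  have hsub : ball (0 : ℂ) (1 / 2) \ {0} ⊆ ball (0 : ℂ) 1 \ {0} := fun z hz =>
    ⟨ball_subset_ball (by norm_num) hz.1, hz.2⟩
  refine ⟨1 / 2, by norm_num, g, fun z j => Function.update (V j) 0 (limUnder (𝓝[≠] 0) (V j)) z,
    hg.mono (ball_subset_ball (by norm_num)), ?_,
    fun z hz => hg0 z (ball_subset_ball (by norm_num) hz), ?_⟩
  · rw [differentiableOn_pi]
    intro j
    apply Complex.differentiableOn_update_limUnder_of_bddAbove (ball_mem_nhds _ (by norm_num))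
      ((hVd j).mono hsub)
    obtain ⟨M, hM⟩ := hbd j
    refine ⟨M, ?_⟩
    rintro _ ⟨z, hz, rfl⟩
    exact hM z hz
  · intro z hz
    have hz1 := hsub hz
    refine ⟨c z, hc0 z hz1, fun i => ?_, fun j => ?_⟩
    · rw [hc z hz1, Pi.smul_apply, smul_eq_mul]
    · change v z j = c z ^ X.wt m j * Function.update (V j) 0 (limUnder (𝓝[≠] 0) (V j)) z
      rw [Function.update_of_ne hz.2]
      rw [hV]
      simp only
      rw [mul_div_cancel₀ _ (pow_ne_zero _ (hc0 z hz1))]

end Pool.Agent.Y641.KZ
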