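import Pool.Agent.Y641.KZ.Alg
import Pool.Agent.Y641.KZ.Ana

/-!
Big Picard for the covers of projective varieties (`St_zdisc`).
-/

set_option autoImplicit false

namespace Pool.Agent.Y641.KZ

open MvPolynomial Metric Filter Topology Pool.Agent.Y192.OG Pool.Agent.Y192.KC
open Pool.Agent.W603.BP Pool.Agent.W601.PH

theorem inv_ev {P : ℂ → Prop} {z : ℂ} (hz : z ≠ 0) (h : ∀ᶠ y in 𝓝[≠] z⁻¹, P y) :
    ∀ᶠ y in 𝓝[≠] z, P y⁻¹ := by
  have h1 : Tendsto (fun y : ℂ => y⁻¹) (𝓝[≠] z) (𝓝[≠] z⁻¹) := by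
    rw [tendsto_nhdsWithin_iff]
    refine ⟨(continuousAt_inv₀ hz).tendsto.mono_left nhdsWithin_le_nhds, ?_⟩
    filter_upwards [self_mem_nhdsWithin] with y hy h0
    exact hy (inv_injective h0)
  exact h1.eventually h

theorem val_zero {n : ℕ} (c : Curve n) (z : ℂ) : c.val 0 z = 0 := by
  have := c.val_smul 0 (0 : c.Mr) z
  rwa [zero_smul, zero_mul] at this

section curve

variable {n r : ℕ} {X : ZCov n r} {m : ℕ}

/-- the curve of the `m`-th powers of the coordinates -/
noncomputable def cv (m : ℕ) {u : ℂ → Fin (n + 1) → ℂ}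
    (hu : ∀ j, AnalyticOnNhd ℂ (fun z => u z j) (PB 1)) (hm : 0 < m) (hne : ∀ z ∈ PB 1, u z ≠ 0)
    {p : ℂ} (hp : p ∈ PB 1) (hp1 : ∀ i, u p i ≠ 0) : Curve n where
  r0 := 1
  X := fun i z => u z⁻¹ i ^ m
  hr0 := le_rfl
  an := fun i z hz =>
    ((hu i z⁻¹ (inv_mem_PB one_pos (by rw [inv_one]; exact hz))).comp_of_eq
      (analyticAt_inv (ext_ne_zero zero_le_one hz)) rfl).fun_pow m
  ncz := by
    intro z hz
    by_contra hcon
    push Not at hcon
    exact hne _ (inv_mem_PB one_pos (by rw [inv_one]; exact hz))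
      (funext fun i => (pow_eq_zero_iff hm.ne').mp (hcon i))
  nz := fun i => ⟨p⁻¹, by
    have := inv_mem_Ext hp
    rwa [inv_one] at this, by
    simp only [inv_inv]
    exact pow_ne_zero _ (hp1 i)⟩

end curve

theorem t_zdisc : St_zdisc := by
  classical
  intro n r X K _ _ x m0 m G0 hx hG0 hcurves hm0 hm he L _ _ t w hF
  obtain ⟨kG, bG, PG, hPG, hPGl⟩ := form G0
  have hPGI : PG ∉ X.I := by
    intro h
    exact hG0 ((form_ep x hPGl).mp ((hx PG kG hPG).mpr h))
  set P : MvPolynomial (Fin (n + 1)) ℂ := (∏ i, MvPolynomial.X i) * PG with hPdef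
  have hP : P.IsHomogeneous ((∑ _i : Fin (n + 1), 1) + kG) :=
    (IsHomogeneous.prod _ _ _ fun i _ => isHomogeneous_X ℂ i).mul hPG
  have hPI : P ∉ X.I := by
    intro h
    rcases X.prime.mem_or_mem h with h1 | h1
    · obtain ⟨i, -, hi⟩ := (X.prime.prod_mem_iff).mp h1
      exact X.hX i hi
    · exact hPGI h1
  refine ⟨sb r m P, _, wh_sb X.toCov m hP,
    fun h0 => hPI ((hF.van P _ hP).mp (by rwa [aeval_sb] at h0)), ?_⟩
  rintro u v hD ⟨p, hp, hpB⟩
  rw [eval_sb, hPdef, map_mul, map_prod] at hpB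
  have hpP : p ∈ PB 1 := mem_disc.mp hp
  have hp1 : ∀ i, u p i ≠ 0 := by
    intro i h0
    have h1 := Finset.prod_ne_zero_iff.mp (left_ne_zero_of_mul hpB) i (Finset.mem_univ i)
    rw [eval_X, h0, zero_pow hm.ne'] at h1
    exact h1 rfl
  have hp2 := right_ne_zero_of_mul hpB
  have hu := fun j => an_of_diffOn hD.diffu j
  have hv : ∀ j, AnalyticOnNhd ℂ (fun z => v z j) (PB 1) := by
    intro j z hz
    have h1 : DifferentiableOn ℂ (fun w => v w j) (ball 0 1 \ {0}) := by
      intro z hz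
      exact (differentiableWithinAt_pi.mp (hD.diffv z hz)) j
    exact h1.analyticAt ((isOpen_ball.sdiff isClosed_singleton).mem_nhds (mem_disc.mpr hz))
  have hmem : ∀ z ∈ PB 1, Pt X.toCov m t w (u z) (v z) := fun z hz => hD.mem z (mem_disc.mpr hz)
  have hne : ∀ z ∈ PB 1, u z ≠ 0 := fun z hz => (hmem z hz).1
  have hinv : ∀ z ∈ Ext 1, z⁻¹ ∈ PB 1 := fun z hz =>
    inv_mem_PB one_pos (by rw [inv_one]; exact hz)
  have hinv' : ∀ w ∈ PB 1, w⁻¹ ∈ Ext 1 := fun w hw => by
    have := inv_mem_Ext hw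
    rwa [inv_one] at this
  have hz0 : ∀ z ∈ Ext 1, z ≠ 0 := fun z hz => ext_ne_zero zero_le_one hz
  have hpE : p⁻¹ ∈ Ext 1 := hinv' p hpP
  set c : Curve n := cv m hu hm hne hpP hp1 with hc
  have hr0 : c.r0 = 1 := rfl
  have hcX : ∀ i z, c.X i z = u z⁻¹ i ^ m := fun i z => rfl
  have hUE : ∀ z ∈ c.U, z ∈ Ext 1 := fun z hz => hz.1
  have hpU : p⁻¹ ∈ c.U := ⟨hpE, fun i => by
    rw [hcX, inv_inv]
    exact pow_ne_zero _ (hp1 i)⟩
  have hval : ∀ (g : Lau n) (z : ℂ), z ∈ c.U →
      c.val (c.ev g) z = lev g (tor fun i => u z⁻¹ i ^ m) := by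
    intro g z hz
    rw [val_ev c g hz]
    rfl
  -- the kernel
  have hker : ∀ g, ep x g = 0 → c.ev g = 0 := by
    intro g hg
    obtain ⟨k, b, Q, hQ, hQl⟩ := form g
    have hQI : Q ∈ X.I := (hx Q k hQ).mp ((form_ep x hQl).mpr hg)
    apply c.val_inj
    intro z hz
    rw [hval g z hz, val_zero]
    exact (form_eval hQ hQl fun i => hz.2 i).mp
      ((pt_pow he hF (hmem _ (hinv z hz.1))).1 Q k hQ hQI)
  have hG : c.ev G0 ≠ 0 := by
    intro h0
    have h1 := hval G0 p⁻¹ hpU
    rw [h0, val_zero, inv_inv] at h1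
    exact hp2 ((form_eval hPG hPGl fun i => pow_ne_zero _ (hp1 i)).mpr h1.symm)
  -- analytic functions
  have hui : ∀ i, ∀ z ∈ Ext 1, AnalyticAt ℂ (fun y => u y⁻¹ i) z := fun i z hz =>
    (hu i z⁻¹ (hinv z hz)).comp_of_eq (analyticAt_inv (hz0 z hz)) rfl
  have hvj : ∀ j, ∀ z ∈ Ext 1, AnalyticAt ℂ (fun y => v y⁻¹ j) z := fun j z hz =>
    (hv j z⁻¹ (hinv z hz)).comp_of_eq (analyticAt_inv (hz0 z hz)) rfl
  have ho0 : ∀ z ∈ Ext 1, ∃ a : ℤ, meromorphicOrderAt (fun y => u y⁻¹ 0) z = a := by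
    intro z hz
    have h1 : meromorphicOrderAt (fun y => u y⁻¹ 0) z ≠ ⊤ := by
      rw [meromorphicOrderAt_ne_top_iff_eventually_ne_zero (hui 0 z hz).meromorphicAt]
      filter_upwards [c.X_punct 0 hz] with y hy h0
      apply hy
      rw [hcX, h0, zero_pow hm.ne']
    exact ⟨_, (WithTop.coe_untop _ h1).symm⟩
  have hord : ∀ (f : MvPolynomial (Fin (n + 1)) ℂ) (k : ℕ), f.IsHomogeneous k → ∀ z ∈ Ext 1,
      ∀ a : ℤ, meromorphicOrderAt (fun y => u y⁻¹ 0) z = a →
      c.ord z (c.ev (laur f)) = meromorphicOrderAt (fun y => eval (fun i => u y⁻¹ i ^ m) f) z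
        - ((m * k : ℕ) : ℤ) * a := by
    intro f k hf z hz a ha
    have h1 : c.val (c.ev (laur f)) =ᶠ[𝓝[≠] z]
        fun y => eval (fun i => u y⁻¹ i ^ m) f / u y⁻¹ 0 ^ (m * k) := by
      filter_upwards [c.U_punct hz] with y hy
      rw [hval _ y hy, lev_laur (v := fun i => u y⁻¹ i ^ m) hf fun i => hy.2 i, ← pow_mul]
    have h2 : MeromorphicAt (fun y => eval (fun i => u y⁻¹ i ^ m) f) z := by
      apply AnalyticAt.meromorphicAt
      have h3 : (fun y => eval (fun i => u y⁻¹ i ^ m) f) = fun y => aeval (fun i => u y⁻¹ i ^ m) f := by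
        funext y
        rw [aeval_eval]
      rw [h3]
      exact AnalyticAt.aeval_mvPolynomial (fun i => (hui i z hz).fun_pow m) f
    unfold Curve.ord
    rw [meromorphicOrderAt_congr h1, fun_meromorphicOrderAt_div h2
      ((hui 0 z hz).meromorphicAt.fun_pow _), fun_meromorphicOrderAt_pow (hui 0 z hz).meromorphicAt,
      ha]
    rfl
  have hadm : AdmG X.FL X.eL m c := by
    refine ⟨fun i z hz => ?_, fun j => ?_⟩
    · have hz1 : z ∈ Ext 1 := hz
      have h1 : analyticOrderAt (c.X i) z = m • analyticOrderAt (fun y => u y⁻¹ i) z :=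
        analyticOrderAt_pow (hui i z hz1) m
      unfold Curve.oX
      rw [h1]
      have h2 : (m • analyticOrderAt (fun y => u y⁻¹ i) z).toNat
          = m * (analyticOrderAt (fun y => u y⁻¹ i) z).toNat := by
        rw [nsmul_eq_mul, ENat.toNat_mul, ENat.toNat_natCast]
      rw [h2]
      exact ⟨_, by push_cast; rfl⟩
    · refine Fin.cases ?_ (fun j => ?_) j
      · intro _ z hz
        have hz1 : z ∈ Ext 1 := hz
        obtain ⟨a, ha⟩ := ho0 z hz1
        have h1 : c.ord z (c.ev (X.FL 0)) = _ := hord X.G X.q X.hG z hz1 a ha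
        have h2 : meromorphicOrderAt (fun y => eval (fun i => u y⁻¹ i ^ m) X.G) z = 0 := by
          have h4 : AnalyticAt ℂ (fun y => eval (fun i => u y⁻¹ i ^ m) X.G) z := by
            have h3 : (fun y => eval (fun i => u y⁻¹ i ^ m) X.G)
                = fun y => aeval (fun i => u y⁻¹ i ^ m) X.G := by
              funext y
              rw [aeval_eval]
            rw [h3]
            exact AnalyticAt.aeval_mvPolynomial (fun i => (hui i z hz).fun_pow m) X.G
          rw [h4.meromorphicOrderAt_eq, h4.analyticOrderAt_eq_zero.mpr (hmem _ (hinv z hz1)).2.2]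
          rfl
        refine ⟨-(X.q * a), ?_⟩
        rw [h1, h2]
        have h5 : md m (X.eL 0) = m := if_pos rfl
        rw [h5, ← WithTop.coe_zero]
        rw [← WithTop.coe_mul, ← WithTop.LinearOrderedAddCommGroup.coe_sub]
        congr 1
        push_cast
        ring
      · intro hj z hz
        have hz1 : z ∈ Ext 1 := hz
        obtain ⟨a, ha⟩ := ho0 z hz1
        have h1 : c.ord z (c.ev (X.FL j.succ)) = _ := hord (X.F j) (X.d j) (X.hF j) z hz1 a ha
        have h2 : (fun y => eval (fun i => u y⁻¹ i ^ m) (X.F j)) =ᶠ[𝓝[≠] z]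
            fun y => v y⁻¹ j ^ X.e j := by
          filter_upwards [nhdsWithin_le_nhds ((Ext_open 1).mem_nhds hz1)] with y hy
          exact ((pt_pow he hF (hmem _ (hinv y hy))).2 j).symm
        rw [meromorphicOrderAt_congr h2, fun_meromorphicOrderAt_pow (hvj j z hz1).meromorphicAt] at h1
        have h3 : meromorphicOrderAt (fun y => v y⁻¹ j) z ≠ ⊤ := by
          intro h4
          apply hj
          have h5 : ∀ y ∈ Ext 1, v y⁻¹ j = 0 := by
            have h6 : AnalyticOnNhd ℂ (fun y => v y⁻¹ j) (Ext 1) := fun y hy => hvj j y hy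
            rw [meromorphicOrderAt_eq_top_iff] at h4
            exact h6.eqOn_zero_of_preconnected_of_frequently_eq_zero (Ext_preconn one_pos) hz1
              h4.frequently
          apply c.val_inj
          intro y hy
          have h7 : c.val (c.ev (X.FL j.succ)) y = _ := hval (laur (X.F j)) y hy
          rw [h7, val_zero, lev_laur (v := fun i => u y⁻¹ i ^ m) (X.hF j) fun i => hy.2 i,
            ← (pt_pow he hF (hmem _ (hinv y hy.1))).2 j, h5 y hy.1, zero_pow (X.he j).ne', zero_div]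
        obtain ⟨b, hb⟩ := WithTop.ne_top_iff_exists.mp h3
        have h5 : md m (X.eL j.succ) = X.e j := if_neg (X.he j).ne'
        obtain ⟨q, hq⟩ := he j
        refine ⟨b - q * X.d j * a, ?_⟩
        rw [h1, ← hb, h5]
        have h6 : ((X.e j : ℕ) : WithTop ℤ) = (((X.e j : ℕ) : ℤ) : WithTop ℤ) := rfl
        rw [h6, ← WithTop.coe_mul, ← WithTop.coe_mul,
          ← WithTop.LinearOrderedAddCommGroup.coe_sub]
        congr 1
        rw [hq]
        push_cast
        ring
  have hinf : ∀ γ, MInf c γ := by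
    refine hcurves m hm0 (fun j => ?_) c hadm hker hG
    refine Fin.cases (fun h => absurd rfl h) (fun j _ => he j) j
  -- extension of `u`
  have hrel : ∀ j, MRel (fun z => u z j ^ m) (fun z => u z 0 ^ m) := by
    intro j
    refine Fin.cases ?_ (fun i => ?_) j
    · exact ⟨fun _ => 1, MeromorphicAt.const 1 0, Eventually.of_forall fun w => (one_mul _).symm⟩
    · obtain ⟨S, hS, R0, hR⟩ := hinf (Pi.single i 1)
      refine rel_ev (fun w hw => ((hu _ w hw).fun_pow m).continuousAt)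
        (fun w hw => ((hu _ w hw).fun_pow m).continuousAt) hS ?_
      rw [ev_iff]
      have hR1pos : 0 < max R0 1 := lt_of_lt_of_le one_pos (le_max_right _ _)
      refine ⟨(max R0 1)⁻¹, inv_pos.mpr hR1pos, fun w hw => ?_⟩
      have hw' : max R0 1 < ‖w⁻¹‖ := by
        have := inv_mem_Ext hw
        rwa [inv_inv] at this
      have hwE : w⁻¹ ∈ Ext 1 := lt_of_le_of_lt (le_max_right _ _) hw'
      have h1 : ∀ᶠ y in 𝓝[≠] w⁻¹, y ∈ c.U ∧ R0 < ‖y‖ := by
        refine (c.U_punct hwE).and (nhdsWithin_le_nhds ?_)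
        exact (isOpen_lt continuous_const continuous_norm).mem_nhds
          (lt_of_le_of_lt (le_max_left _ _) hw')
      filter_upwards [inv_ev hw.1 h1] with y hy
      have h2 := hR y⁻¹ hy.1 hy.2
      have h3 : c.monf (Pi.single i 1) y⁻¹ = u y i.succ ^ m / u y 0 ^ m := by
        unfold Curve.monf
        rw [Finset.prod_eq_single i]
        · rw [Pi.single_eq_same, zpow_one]
          unfold Curve.xf
          rw [hcX, hcX, inv_inv]
        · intro l _ hl
          rw [Pi.single_eq_of_ne hl, zpow_zero]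
        · intro h
          exact absurd (Finset.mem_univ i) h
      have h4 : u y 0 ^ m ≠ 0 := by
        have := hy.1.2 0
        rwa [hcX, inv_inv] at this
      rw [h3] at h2
      rw [← h2, div_mul_cancel₀ _ h4]
  have hn0 : Nz (fun z => u z 0) := by
    intro h1
    obtain ⟨δ, hδ, h2⟩ := ev_iff.mp h1
    obtain ⟨y, hy⟩ := Filter.nonempty_of_mem (PB_mem (lt_min hδ one_pos))
    have hy1 : y ∈ PB 1 := PB_mono (min_le_right _ _) hy
    have h3 : (fun z => u z 0) =ᶠ[𝓝 y] 0 := by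
      filter_upwards [(PB_open _).mem_nhds hy] with z hz
      exact h2 z (PB_mono (min_le_left _ _) hz)
    exact hp1 0 ((hu 0).eqOn_zero_of_preconnected_of_eventuallyEq_zero (PB_preconn one_pos) hy1 h3
      hpP)
  have hE : Pool.Agent.W603.BP.Extends u := extends_root hm hu hne hn0 hrel
  exact extends_cover X.toCov he hD.diffu hD.diffv (fun z hz => (hD.mem z hz).1)
    (fun z hz j => (pt_pow he hF (hD.mem z hz)).2 j) hE

end Pool.Agent.Y641.KZ
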